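import Pool.Agent.helper58.FI.SpecC

set_option autoImplicit false

namespace Pool.Agent.FI

open Pool.Agent.helper58.DC Pool.Agent.DI Pool.Agent.GR Pool.Agent.OB Pool.Agent.DR

theorem FCQ_cys {G : Type} [Group G] (g : G) (K S : Subgroup G) (h : CyS (cjS g K) (cjS g S)) : CyS K S := by
  obtain ⟨s', ⟨s, hs, rfl⟩, h2⟩ := h
  refine ⟨s, hs, fun x hx => ?_⟩
  obtain ⟨k, hk⟩ := h2 (g * x * g⁻¹) ⟨x, hx, rfl⟩
  refine ⟨k, ?_⟩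
  rw [mem_cjS] at hk
  have h3 : g⁻¹ * (((MulAut.conj g).toMonoidHom s) ^ k * (g * x * g⁻¹)) * g = s ^ k * x := by
    have h4 : ((MulAut.conj g).toMonoidHom s) ^ k = g * s ^ k * g⁻¹ := by
      rw [← map_zpow]
      rfl
    rw [h4]
    group
  rw [h3] at hk
  exact hk

theorem FCQ (hFCP : FCP_stmt) (hHTZ : HTZ_stmt) (hFEQ : FEQ_stmt) : FCQ_stmt := by
  intro p M hS G _ _ D x θ χ hL P hPp hP N hN1 hN2 ψ hψ
  obtain ⟨g, hg, hSB⟩ := hL.lo.con P hPp ψ hψ.1 hψ.2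
  have hcz : cz (cjS g P) = cjS g (cz P) := (hFEQ G M g 1 P P P θ θ θ).2.1.1
  have hnz : nz (cjS g P) = cjS g (nz P) := (hFEQ G M g 1 P P P θ θ θ).2.1.2.1
  have hP' : cjS g P ≠ ⊥ := fun h => hP ((hFEQ G M g 1 P P P θ θ θ).2.1.2.2.2.2.1.1 h)
  have hN1' : cz (cjS g P) ≤ cjS g N := by
    rw [hcz]
    exact (hFEQ G M g 1 (cz P) N P θ θ θ).2.1.2.2.1.2 hN1
  have hN2' : cjS g N ≤ nz (cjS g P) := by
    rw [hnz]
    exact (hFEQ G M g 1 N (nz P) P θ θ θ).2.1.2.2.1.2 hN2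
  have hψ' : cjF g ψ ∈ Bl M (cz (cjS g P)) θ := by
    refine ⟨?_, hSB.symm⟩
    rw [hcz]
    exact (hFEQ G M g 1 P P (cz P) θ ψ θ).2.2.2.1.1 hψ.1
  have hst : stF (cjS g N) (cjF g ψ) = cjS g (stF N ψ) := (hFEQ G M g 1 P P N θ ψ θ).2.2.2.2.2.2.2.1
  obtain ⟨h1, h2, -, -⟩ := hFCP p M hS G D x θ χ hL.lo (cjS g P) hg hP' (cjS g N) hN1' hN2' (cjF g ψ) hψ'
  rw [hcz, hst] at h1 h2
  refine ⟨FCQ_cys g _ _ h1, ?_, ?_⟩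
  · rw [(hFEQ G M g 1 (cz P) (stF N ψ) P θ θ θ).2.2.2.2.2.2.2.2] at h2
    exact h2
  · intro a ha
    obtain ⟨n, hn1, hn2⟩ := hHTZ p M hS G D x θ χ hL.lo (cjS g P) hg (hL.good _ hg hP') (cjF g ψ) hψ' a ha
    refine ⟨n, ?_, ?_⟩
    · rw [← hn1, cjF_apply]
      congr 1
      group
    · rw [hn2, hcz, (hFEQ G M g 1 (cz P) P P θ θ θ).2.1.2.2.2.2.2]

end Pool.Agent.FI
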