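import Pool.Agent.helper22.FI.SpecA

set_option autoImplicit false

namespace Pool.Agent.FI

open Pool.Agent.helper58.DC Pool.Agent.DI Pool.Agent.GR Pool.Agent.OB

theorem HTC (h1 : ALP_stmt) (h2 : SBI_stmt) : HTC_stmt := by
  intro p M hS G _ _ L D w hLD ψ hψ hD ψ' hψ'
  have hsb := (h2 p M hS G L ψ' ψ hψ'.2).2
  have hD' : DefL p M L ψ' D w :=
    { reg := hD.reg
      mem := hD.mem
      le := hD.le
      pg := hD.pg
      card := hD.card
      ne := fun h => hD.ne ((hsb w hD.mem).1 h)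
      min := fun y hy h => hD.min y hy fun h' => h ((hsb y hy).2 h') }
  have hDL : D ≤ L := hD.le.trans inf_le_left
  have hcom : ∀ c ∈ D, ∀ d ∈ D, c * d = d * c := fun c hc d hd =>
    Subgroup.mem_centralizer_iff.1 (hLD (hDL hd)) c hc
  have hinf : L ⊓ cz D = L := inf_eq_left.2 hLD
  obtain ⟨w', -, -, -, -, -, -, -, n, k, hn, hk, hpk⟩ := h1 p M hS G L D w ψ' hD' hcom ψ' (by rw [hinf]; exact hψ'.1) (SB.refl _ _)
  refine ⟨hD', n, k, hn, ?_, hpk⟩
  rw [hinf] at hk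
  exact hk

end Pool.Agent.FI
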