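import Pool.Agent.helper22.FI.SpecA

set_option autoImplicit false

namespace Pool.Agent.FI

open Pool.Agent.helper58.DC Pool.Agent.DI Pool.Agent.GR Pool.Agent.OB

theorem TTF_map {G : Type} [Group G] (D : Subgroup G) (n : G) (hn : n ∈ nz D) : D.map (MulAut.conj n).toMonoidHom = D := by
  ext y
  constructor
  · rintro ⟨x, hx, rfl⟩
    exact (Subgroup.mem_normalizer_iff.1 hn x).1 hx
  · intro hy
    refine ⟨n⁻¹ * y * n, ?_, ?_⟩
    · have h := (Subgroup.mem_normalizer_iff.1 ((nz D).inv_mem hn) y).1 hy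
      rwa [inv_inv] at h
    · change n * (n⁻¹ * y * n) * n⁻¹ = y
      group

theorem TTF (h1 : CJG_stmt) : TTF_stmt := by
  intro G _ _ M D θ hθ
  have hc : cz D ≤ TT M D θ := by
    intro c hc
    refine ⟨?_, ((h1 G M 2 c (cz D)).2.2.2.2.2.1 hc θ).1⟩
    rw [Subgroup.mem_normalizer_iff]
    intro y
    constructor
    · intro hy
      have h := Subgroup.mem_centralizer_iff.1 hc y hy
      have h' : c * y * c⁻¹ = y := by rw [← h]; group
      rwa [h']
    · intro hy
      have h := Subgroup.mem_centralizer_iff.1 hc _ hy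
      have h' : c * y * c⁻¹ = y := by
        have h2 : c * y = c * (c * y * c⁻¹) := by rw [← h]; group
        exact (mul_left_cancel h2).symm
      rwa [h'] at hy
  have hT : TT M D θ ≤ nz D := fun t ht => ht.1
  have hn : ∀ n ∈ nz D, (cz D).map (MulAut.conj n).toMonoidHom = cz D ∧ D.map (MulAut.conj n).toMonoidHom = D := by
    intro n hn
    refine ⟨?_, TTF_map D n hn⟩
    rw [← (h1 G M 2 n D).2.2.2.2.1 D, TTF_map D n hn]
  refine ⟨hc, hT, hn, ?_, ?_⟩
  · intro hcom
    have h : D ≤ cz D := fun d hd => Subgroup.mem_centralizer_iff.2 fun e he => hcom e he d hd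
    exact ⟨h, h.trans hc⟩
  · intro n hnn t ht
    have h := (h1 G M 2 n (cz D)).2.1 (funMap (MulAut.conj t) θ) θ ht.2
    rw [(hn n hnn).1, (h1 G M 2 n (cz D)).2.2.2.2.2.2.2.1 t θ] at h
    exact h

end Pool.Agent.FI
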