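import Pool.Agent.helper95.FI.SpecT

set_option autoImplicit false

open Finset

namespace Pool.Agent.FI

/-- the vector attached to `z` -/
def GDP_v (e : ℕ) (z : ℤ × ℤ) : ℤ × ℤ := ((e : ℤ) * z.2, z.1)

theorem GDP_inj {e : ℕ} (he : 1 ≤ e) : Function.Injective (GDP_v e) := by
  intro z w h
  unfold GDP_v at h
  rw [Prod.mk.injEq] at h
  have he' : (e : ℤ) ≠ 0 := by exact_mod_cast (show e ≠ 0 by omega)
  exact Prod.ext h.2 (mul_left_cancel₀ he' h.1)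

theorem GDP_det (e : ℕ) (z z' : ℤ × ℤ) :
    (GDP_v e z).1 * (GDP_v e z').2 - (GDP_v e z').1 * (GDP_v e z).2 = (e : ℤ) * dl z z' := by
  unfold GDP_v dl
  ring

theorem GDP_back {e : ℕ} (he : 1 ≤ e) (z : ℤ × ℤ) : ((GDP_v e z).2, (GDP_v e z).1 / (e : ℤ)) = z := by
  unfold GDP_v
  have he' : (e : ℤ) ≠ 0 := by exact_mod_cast (show e ≠ 0 by omega)
  refine Prod.ext rfl ?_
  show (e : ℤ) * z.2 / (e : ℤ) = z.2
  exact Int.mul_ediv_cancel_left _ he'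

theorem GDP_Ef (x K : ℕ) (lam : ℤ → ℝ) (i j D : ℕ) (ω ω' : ℤ) (h : (D : ℤ) ∣ ω - ω') :
    Ef x K lam i j D ω = Ef x K lam i j D ω' := by
  classical
  unfold Ef
  refine Finset.sum_congr rfl fun l₁ _ => Finset.sum_congr rfl fun l₂ _ => ?_
  have e1 : (D : ℤ) ∣ l₂ - ω * l₁ ↔ (D : ℤ) ∣ l₂ - ω' * l₁ := by
    constructor
    · intro h1
      have e2 : l₂ - ω' * l₁ = (l₂ - ω * l₁) + (ω - ω') * l₁ := by ring
      rw [e2]
      exact dvd_add h1 (h.mul_right _)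
    · intro h1
      have e2 : l₂ - ω * l₁ = (l₂ - ω' * l₁) - (ω - ω') * l₁ := by ring
      rw [e2]
      exact dvd_sub h1 (h.mul_right _)
  by_cases h1 : IsCoprime l₁ (D : ℤ) ∧ (D : ℤ) ∣ l₂ - ω * l₁
  · rw [if_pos h1, if_pos ⟨h1.1, e1.1 h1.2⟩]
  · rw [if_neg h1, if_neg (fun h2 => h1 ⟨h2.1, e1.2 h2.2⟩)]

theorem GDP_ZD {N : ℕ} {z : ℤ × ℤ} (hFFC : FFC_stmt) (h : z ∈ ZD N) :
    z.1 % 2 = 1 ∧ IsCoprime z.1 z.2 ∧ z.1 ^ 2 ≤ 4 * (N : ℤ) ∧ z.2 ^ 2 ≤ 2 * (N : ℤ) := by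
  classical
  unfold ZD at h
  rw [mem_filter] at h
  obtain ⟨h1, _, h2⟩ := h
  obtain ⟨h3, h4⟩ := (hFFC (2 * N)).2 z h1
  unfold FF at h1
  rw [mem_filter] at h1
  refine ⟨h1.2.1.1, h2, ?_, ?_⟩
  · push_cast at h3
    linarith
  · push_cast at h4
    exact h4

theorem GDP (hSEC : SEC_stmt) (hPLN : PLN_stmt) (hLSP : LSP_stmt) (hFFC : FFC_stmt) : GDP_stmt := by
  classical
  obtain ⟨CS, hCS, hS⟩ := hSEC
  obtain ⟨CL, hCL, hL⟩ := hLSP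
  refine ⟨CS * 25 * 676 * √(216 * CL), by positivity, ?_⟩
  intro om hom x N K₁ K₂ R₀ hx hN hK₁ hK₂ hR₀ h72 M S lam hM hSW i j e hi hj he
  have he1 : 1 ≤ e := by omega
  have he2 : e ≤ 2 := by omega
  have hNr : (1 : ℝ) ≤ N := by exact_mod_cast hN
  have hsN : 1 ≤ √(N : ℝ) := Real.one_le_sqrt.2 hNr
  have hsq : √(N : ℝ) ^ 2 = N := Real.sq_sqrt (by positivity)
  obtain ⟨P, hP⟩ : ∃ P : ℕ, P = ⌈4 * √(N : ℝ)⌉₊ := ⟨_, rfl⟩
  have hP1 : 4 * √(N : ℝ) ≤ P := by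
    rw [hP]
    exact Nat.le_ceil _
  have hP2 : (P : ℝ) ≤ 5 * √(N : ℝ) := by
    rw [hP]
    have := (Nat.ceil_lt_add_one (show 0 ≤ 4 * √(N : ℝ) by positivity)).le
    linarith
  have hPsq : (P : ℝ) ^ 2 ≤ 25 * N := by
    calc (P : ℝ) ^ 2 ≤ (5 * √(N : ℝ)) ^ 2 := pow_le_pow_left₀ (Nat.cast_nonneg _) hP2 2
      _ = 25 * N := by rw [mul_pow, hsq]; norm_num
  have hPsqN : P ^ 2 ≤ 25 * N := by exact_mod_cast hPsq
  have hPge : 16 * N ≤ P ^ 2 := by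
    have : 16 * (N : ℝ) ≤ (P : ℝ) ^ 2 := by
      calc 16 * (N : ℝ) = (4 * √(N : ℝ)) ^ 2 := by rw [mul_pow, hsq]; norm_num
        _ ≤ (P : ℝ) ^ 2 := pow_le_pow_left₀ (by positivity) hP1 2
    exact_mod_cast this
  have hPpos : 1 ≤ P := by
    rcases Nat.eq_zero_or_pos P with h | h
    · rw [h] at hPge
      omega
    · exact h
  obtain ⟨D₀, hD₀⟩ : ∃ D₀ : ℕ, D₀ = N / K₁ + 1 := ⟨_, rfl⟩
  have hD₀1 : 1 ≤ D₀ := by
    rw [hD₀]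
    exact Nat.succ_le_succ (Nat.zero_le _)
  obtain ⟨Y, hYd⟩ : ∃ Y : Finset (ℤ × ℤ), Y = (ZD N).image (GDP_v e) := ⟨_, rfl⟩
  have hPgeZ : 16 * (N : ℤ) ≤ (P : ℤ) ^ 2 := by exact_mod_cast hPge
  have hY : Y ⊆ Bx P := by
    intro y hy
    rw [hYd, mem_image] at hy
    obtain ⟨z, hz, rfl⟩ := hy
    obtain ⟨_, _, h3, h4⟩ := GDP_ZD hFFC hz
    have he2z : (e : ℤ) ≤ 2 := by exact_mod_cast he2
    have he0z : (0 : ℤ) ≤ e := by positivity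
    have h5 : ((e : ℤ) * z.2) ^ 2 ≤ (P : ℤ) ^ 2 := by
      rw [mul_pow]
      have h6 : (e : ℤ) ^ 2 ≤ 4 := by nlinarith
      calc (e : ℤ) ^ 2 * z.2 ^ 2 ≤ 4 * (2 * (N : ℤ)) := mul_le_mul h6 h4 (sq_nonneg _) (by norm_num)
        _ ≤ (P : ℤ) ^ 2 := by linarith [show (0 : ℤ) ≤ N by positivity]
    have h7 : z.1 ^ 2 ≤ (P : ℤ) ^ 2 := by linarith [show (0 : ℤ) ≤ N by positivity]
    unfold Bx
    rw [mem_product, mem_Icc, mem_Icc]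
    exact ⟨abs_le_of_sq_le_sq' h5 (by positivity), abs_le_of_sq_le_sq' h7 (by positivity)⟩
  have hsl : ∀ y ∈ Y, ∀ y' ∈ Y, y.1 * y'.2 - y'.1 * y.2 ≠ 0 →
      IsCoprime (om e (y.2, y.1 / (e : ℤ)) (y'.2, y'.1 / (e : ℤ))) (y.1 * y'.2 - y'.1 * y.2) ∧
      y.1 * y'.2 - y'.1 * y.2 ∣ y'.1 - om e (y.2, y.1 / (e : ℤ)) (y'.2, y'.1 / (e : ℤ)) * y.1 ∧
      y.1 * y'.2 - y'.1 * y.2 ∣ y'.2 - om e (y.2, y.1 / (e : ℤ)) (y'.2, y'.1 / (e : ℤ)) * y.2 := by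
    intro y hy y' hy' hne
    rw [hYd, mem_image] at hy hy'
    obtain ⟨z, hz, rfl⟩ := hy
    obtain ⟨z', hz', rfl⟩ := hy'
    rw [GDP_back he1, GDP_back he1, GDP_det] at *
    obtain ⟨a1, a2, _, _⟩ := GDP_ZD hFFC hz
    obtain ⟨b1, b2, _, _⟩ := GDP_ZD hFFC hz'
    have hd : dl z z' ≠ 0 := right_ne_zero_of_mul hne
    obtain ⟨c1, c2⟩ := hom e he z z' a1 b1 a2 b2 hd
    refine ⟨c1, ?_, ?_⟩
    · refine (c2 _ _).1 ⟨1, 0, ?_, ?_⟩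
      · unfold GDP_v
        ring
      · unfold GDP_v
        ring
    · refine (c2 _ _).1 ⟨0, 1, ?_, ?_⟩
      · unfold GDP_v
        ring
      · unfold GDP_v
        ring
  have hSEC1 := hS P D₀ hPpos (by omega) Y hY (fun y y' => om e (y.2, y.1 / (e : ℤ)) (y'.2, y'.1 / (e : ℤ)))
    (fun D ω => |Ef x K₂ lam i j D ω|) (fun _ _ => abs_nonneg _)
    (fun D ω ω' h => by
      show |Ef x K₂ lam i j D ω| = |Ef x K₂ lam i j D ω'|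
      rw [GDP_Ef x K₂ lam i j D ω ω' h]) hsl
  -- the left side
  have hleft : ∑ p ∈ ZD N ×ˢ ZD N with N < K₁ * (dl p.1 p.2).natAbs,
      |Ef x K₂ lam i j (e * (dl p.1 p.2).natAbs) (om e p.1 p.2)| ≤
      ∑ p ∈ Y ×ˢ Y with D₀ ≤ (p.1.1 * p.2.2 - p.2.1 * p.1.2).natAbs,
        |Ef x K₂ lam i j (p.1.1 * p.2.2 - p.2.1 * p.1.2).natAbs
          (om e (p.1.2, p.1.1 / (e : ℤ)) (p.2.2, p.2.1 / (e : ℤ)))| := by
    have hinj : Set.InjOn (fun p : (ℤ × ℤ) × (ℤ × ℤ) => (GDP_v e p.1, GDP_v e p.2))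
        ((ZD N ×ˢ ZD N).filter (fun p => N < K₁ * (dl p.1 p.2).natAbs) : Finset _) := by
      intro p _ q _ h
      simp only [Prod.mk.injEq] at h
      exact Prod.ext (GDP_inj he1 h.1) (GDP_inj he1 h.2)
    calc ∑ p ∈ ZD N ×ˢ ZD N with N < K₁ * (dl p.1 p.2).natAbs,
          |Ef x K₂ lam i j (e * (dl p.1 p.2).natAbs) (om e p.1 p.2)|
        = ∑ p ∈ ZD N ×ˢ ZD N with N < K₁ * (dl p.1 p.2).natAbs,
          (fun p : (ℤ × ℤ) × (ℤ × ℤ) => |Ef x K₂ lam i j (p.1.1 * p.2.2 - p.2.1 * p.1.2).natAbs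
            (om e (p.1.2, p.1.1 / (e : ℤ)) (p.2.2, p.2.1 / (e : ℤ)))|) (GDP_v e p.1, GDP_v e p.2) := by
          refine Finset.sum_congr rfl fun p _ => ?_
          show _ = |Ef x K₂ lam i j ((GDP_v e p.1).1 * (GDP_v e p.2).2 - (GDP_v e p.2).1 * (GDP_v e p.1).2).natAbs
            (om e ((GDP_v e p.1).2, (GDP_v e p.1).1 / (e : ℤ)) ((GDP_v e p.2).2, (GDP_v e p.2).1 / (e : ℤ)))|
          rw [GDP_back he1, GDP_back he1, GDP_det, Int.natAbs_mul, Int.natAbs_natCast]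
      _ = ∑ q ∈ ((ZD N ×ˢ ZD N).filter (fun p => N < K₁ * (dl p.1 p.2).natAbs)).image
            (fun p : (ℤ × ℤ) × (ℤ × ℤ) => (GDP_v e p.1, GDP_v e p.2)),
          |Ef x K₂ lam i j (q.1.1 * q.2.2 - q.2.1 * q.1.2).natAbs
            (om e (q.1.2, q.1.1 / (e : ℤ)) (q.2.2, q.2.1 / (e : ℤ)))| := by
          rw [Finset.sum_image hinj]
      _ ≤ _ := by
          refine Finset.sum_le_sum_of_subset_of_nonneg ?_ (fun _ _ _ => abs_nonneg _)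
          intro q hq
          rw [mem_image] at hq
          obtain ⟨p, hp, rfl⟩ := hq
          rw [mem_filter, mem_product] at hp
          obtain ⟨⟨hp1, hp2⟩, hp3⟩ := hp
          rw [mem_filter, mem_product, hYd]
          refine ⟨⟨mem_image_of_mem _ hp1, mem_image_of_mem _ hp2⟩, ?_⟩
          show D₀ ≤ ((GDP_v e p.1).1 * (GDP_v e p.2).2 - (GDP_v e p.2).1 * (GDP_v e p.1).2).natAbs
          rw [GDP_det, Int.natAbs_mul, Int.natAbs_natCast]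
          have h1 : D₀ ≤ (dl p.1 p.2).natAbs := by
            rw [hD₀, Nat.succ_le_iff, Nat.div_lt_iff_lt_mul (by omega), Nat.mul_comm]
            exact hp3
          calc D₀ ≤ 1 * (dl p.1 p.2).natAbs := by rw [one_mul]; exact h1
            _ ≤ e * (dl p.1 p.2).natAbs := Nat.mul_le_mul_right _ he1
  refine (hleft.trans hSEC1).trans ?_
  -- the second moment
  have hxr : (1 : ℝ) ≤ x := by exact_mod_cast hx
  have hlx : 0 ≤ Real.log x := Real.log_nonneg hxr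
  obtain ⟨V, hV⟩ : ∃ V : ℝ, V = (1 + Real.log x) * ((N + (x : ℝ) ^ 2 / R₀) * (x ^ 2 * M ^ 4 * (1 + Real.log x) ^ 3) + R₀ * S ^ 4) :=
    ⟨_, rfl⟩
  have hM4 : 0 ≤ M ^ 4 := by positivity
  have hS4 : 0 ≤ S ^ 4 := by positivity
  have hV0 : 0 ≤ V := by
    rw [hV]
    positivity
  have hsecond : ∑ D ∈ Icc D₀ (2 * P ^ 2), ∑ ω ∈ range D with Nat.Coprime ω D, |Ef x K₂ lam i j D (ω : ℤ)| ^ 2 ≤
      216 * CL * V := by
    have h1 : ∀ D ∈ Icc D₀ (2 * P ^ 2), ∑ ω ∈ range D with Nat.Coprime ω D, |Ef x K₂ lam i j D (ω : ℤ)| ^ 2 =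
        1 / (Nat.totient D : ℝ) * ∑ χ : DirichletCharacter ℂ D,
          ‖∑ l ∈ Ioc (pt x K₂ i : ℤ) (pt x K₂ (i + 1)), (lam l : ℂ) * χ (l : ZMod D)‖ ^ 2 *
          ‖∑ l ∈ Ioc (pt x K₂ j : ℤ) (pt x K₂ (j + 1)), (lam l : ℂ) * χ (l : ZMod D)‖ ^ 2 := by
      intro D hD
      rw [mem_Icc] at hD
      rw [← hPLN x K₂ lam i j D (by omega)]
      exact Finset.sum_congr rfl fun ω _ => sq_abs _
    rw [Finset.sum_congr rfl h1]
    have h2 : Icc D₀ (2 * P ^ 2) ⊆ Icc 1 (72 * N) := by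
      intro D hD
      rw [mem_Icc] at hD ⊢
      constructor <;> omega
    refine (Finset.sum_le_sum_of_subset_of_nonneg h2 (fun D _ _ => by positivity)).trans ?_
    refine (hL x K₂ (72 * N) R₀ hx hK₂ (by omega) hR₀ h72 M S lam hM hSW i j hi hj).trans ?_
    have h3 : Real.log ((72 * N : ℕ) : ℝ) ≤ 3 * Real.log x := by
      have h4 : ((72 * N : ℕ) : ℝ) ≤ (x : ℝ) ^ 3 := by exact_mod_cast h72
      have h5 := Real.log_le_log (by positivity) h4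
      rw [Real.log_pow] at h5
      exact_mod_cast h5
    have h6 : 1 + Real.log ((72 * N : ℕ) : ℝ) ≤ 3 * (1 + Real.log x) := by linarith
    obtain ⟨U, hU⟩ : ∃ U : ℝ, U = x ^ 2 * M ^ 4 * (1 + Real.log x) ^ 3 := ⟨_, rfl⟩
    have hU0 : 0 ≤ U := by
      rw [hU]
      positivity
    rw [hV, ← hU]
    obtain ⟨W, hW⟩ : ∃ W : ℝ, W = (x : ℝ) ^ 2 / R₀ := ⟨_, rfl⟩
    have hW0 : 0 ≤ W := by
      rw [hW]
      positivity
    rw [← hW]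
    have h7 : ((((72 * N : ℕ) : ℝ) + W) * U + R₀ * S ^ 4) ≤ 72 * ((N + W) * U + R₀ * S ^ 4) := by
      push_cast
      have h8 : 0 ≤ W * U := mul_nonneg hW0 hU0
      have h9 : 0 ≤ (R₀ : ℝ) * S ^ 4 := by positivity
      nlinarith
    have h10 : 0 ≤ (((72 * N : ℕ) : ℝ) + W) * U + R₀ * S ^ 4 := by positivity
    calc CL * (1 + Real.log ((72 * N : ℕ) : ℝ)) * ((((72 * N : ℕ) : ℝ) + W) * U + R₀ * S ^ 4)
        ≤ CL * (3 * (1 + Real.log x)) * (72 * ((N + W) * U + R₀ * S ^ 4)) := by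
          refine mul_le_mul (mul_le_mul_of_nonneg_left h6 hCL.le) h7 h10 (by positivity)
      _ = 216 * CL * ((1 + Real.log x) * ((N + W) * U + R₀ * S ^ 4)) := by ring
  have hroot : √(∑ D ∈ Icc D₀ (2 * P ^ 2), ∑ ω ∈ range D with Nat.Coprime ω D, |Ef x K₂ lam i j D (ω : ℤ)| ^ 2) ≤
      √(216 * CL) * √V := by
    rw [← Real.sqrt_mul (by positivity)]
    exact Real.sqrt_le_sqrt hsecond
  have hK₁r : (1 : ℝ) ≤ K₁ := by exact_mod_cast hK₁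
  have hD₀r : (N : ℝ) ≤ K₁ * D₀ := by
    have h1 : N < K₁ * D₀ := by
      rw [hD₀]
      exact Nat.lt_mul_div_succ N (by omega)
    exact_mod_cast h1.le
  have hD₀p : (0 : ℝ) < D₀ := by exact_mod_cast (show 0 < D₀ by omega)
  have hquot : (P : ℝ) ^ 2 / D₀ + 1 ≤ 26 * K₁ := by
    have h1 : (P : ℝ) ^ 2 / D₀ ≤ 25 * K₁ := by
      rw [div_le_iff₀ hD₀p]
      calc (P : ℝ) ^ 2 ≤ 25 * N := hPsq
        _ ≤ 25 * (K₁ * D₀) := by linarith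
        _ = 25 * K₁ * D₀ := by ring
    linarith
  have hquot2 : ((P : ℝ) ^ 2 / D₀ + 1) ^ 2 ≤ 676 * (K₁ : ℝ) ^ 2 := by
    calc ((P : ℝ) ^ 2 / D₀ + 1) ^ 2 ≤ (26 * (K₁ : ℝ)) ^ 2 := pow_le_pow_left₀ (by positivity) hquot 2
      _ = 676 * (K₁ : ℝ) ^ 2 := by ring
  rw [← hV]
  calc CS * (P : ℝ) ^ 2 * ((P : ℝ) ^ 2 / D₀ + 1) ^ 2 *
        √(∑ D ∈ Icc D₀ (2 * P ^ 2), ∑ ω ∈ range D with Nat.Coprime ω D, |Ef x K₂ lam i j D (ω : ℤ)| ^ 2)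
      ≤ CS * (25 * N) * (676 * (K₁ : ℝ) ^ 2) * (√(216 * CL) * √V) := by
        refine mul_le_mul ?_ hroot (Real.sqrt_nonneg _) (by positivity)
        refine mul_le_mul ?_ hquot2 (by positivity) (by positivity)
        exact mul_le_mul_of_nonneg_left hPsq hCS.le
    _ = CS * 25 * 676 * √(216 * CL) * N * (K₁ : ℝ) ^ 2 * √V := by ring

end Pool.Agent.FI
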