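import Pool.Agent.helper95.FI.SpecT

set_option autoImplicit false

open Finset

namespace Pool.Agent.FI

/-- the determinant of a pair -/
def SEC_det (p : (ℤ × ℤ) × (ℤ × ℤ)) : ℤ := p.1.1 * p.2.2 - p.2.1 * p.1.2

/-- the key: modulus and reduced slope -/
def SEC_key (sl : ℤ × ℤ → ℤ × ℤ → ℤ) (p : (ℤ × ℤ) × (ℤ × ℤ)) : Σ _ : ℕ, ℕ :=
  ⟨(SEC_det p).natAbs, (sl p.1 p.2 % ((SEC_det p).natAbs : ℤ)).toNat⟩

theorem SEC_bound {P : ℕ} {a b c d : ℤ} (ha : -(P : ℤ) ≤ a ∧ a ≤ P) (hb : -(P : ℤ) ≤ b ∧ b ≤ P)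
    (hc : -(P : ℤ) ≤ c ∧ c ≤ P) (hd : -(P : ℤ) ≤ d ∧ d ≤ P) : |a * b - c * d| ≤ 2 * (P : ℤ) ^ 2 := by
  have h1 : |a * b| ≤ (P : ℤ) ^ 2 := by
    rw [abs_mul, sq]
    exact mul_le_mul (abs_le.2 ha) (abs_le.2 hb) (abs_nonneg _) (by positivity)
  have h2 : |c * d| ≤ (P : ℤ) ^ 2 := by
    rw [abs_mul, sq]
    exact mul_le_mul (abs_le.2 hc) (abs_le.2 hd) (abs_nonneg _) (by positivity)
  calc |a * b - c * d| ≤ |a * b| + |c * d| := abs_sub _ _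
    _ ≤ 2 * (P : ℤ) ^ 2 := by linarith

theorem SEC_mem {P : ℕ} {y : ℤ × ℤ} (h : y ∈ Bx P) :
    (-(P : ℤ) ≤ y.1 ∧ y.1 ≤ P) ∧ (-(P : ℤ) ≤ y.2 ∧ y.2 ≤ P) := by
  unfold Bx at h
  rw [mem_product, mem_Icc, mem_Icc] at h
  exact h

theorem SEC_quot {P D₀ : ℕ} (hD₀ : 1 ≤ D₀) {D : ℕ} (hD : D₀ ≤ D) {n : ℤ} (hdvd : (D : ℤ) ∣ n)
    (hn : |n| ≤ 2 * (P : ℤ) ^ 2) : n / (D : ℤ) ∈ Icc (-((2 * P ^ 2 / D₀ : ℕ) : ℤ)) ((2 * P ^ 2 / D₀ : ℕ) : ℤ) := by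
  obtain ⟨k, hk⟩ := hdvd
  have hD1 : (0 : ℤ) < D := by exact_mod_cast (show 0 < D by omega)
  have h1 : n / (D : ℤ) = k := by
    rw [hk]
    exact Int.mul_ediv_cancel_left k hD1.ne'
  rw [h1, mem_Icc, ← abs_le]
  have h2 : (D : ℤ) * |k| ≤ 2 * (P : ℤ) ^ 2 := by
    have h3 : |n| = (D : ℤ) * |k| := by rw [hk, abs_mul, abs_of_pos hD1]
    rw [← h3]
    exact hn
  have h4 : D * k.natAbs ≤ 2 * P ^ 2 := by
    have h5 : ((D * k.natAbs : ℕ) : ℤ) ≤ ((2 * P ^ 2 : ℕ) : ℤ) := by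
      push_cast
      exact h2
    exact_mod_cast h5
  have h6 : k.natAbs ≤ 2 * P ^ 2 / D₀ := by
    rw [Nat.le_div_iff_mul_le (by omega)]
    calc k.natAbs * D₀ ≤ k.natAbs * D := Nat.mul_le_mul_left _ hD
      _ = D * k.natAbs := Nat.mul_comm _ _
      _ ≤ 2 * P ^ 2 := h4
  rw [Int.abs_eq_natAbs]
  exact_mod_cast h6

/-- uniqueness in a linear system -/
theorem SEC_lin {a b c d x y x' y' : ℤ} (hdet : a * d - c * b ≠ 0) (h1 : c * x - a * y = c * x' - a * y')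
    (h2 : d * x - b * y = d * x' - b * y') : x = x' ∧ y = y' := by
  have e1 : (a * d - c * b) * (x - x') = 0 := by
    linear_combination a * h2 - b * h1
  have e2 : (a * d - c * b) * (y - y') = 0 := by
    linear_combination c * h2 - d * h1
  constructor
  · rcases mul_eq_zero.1 e1 with h | h
    · exact absurd h hdet
    · linarith
  · rcases mul_eq_zero.1 e2 with h | h
    · exact absurd h hdet
    · linarith

theorem SEC_emod {D : ℕ} {a b : ℤ} (hD : 0 < D) (h : (a % (D : ℤ)).toNat = (b % (D : ℤ)).toNat) : (D : ℤ) ∣ a - b := by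
  have hD1 : (D : ℤ) ≠ 0 := by exact_mod_cast (show D ≠ 0 by omega)
  have h1 := Int.emod_nonneg a hD1
  have h2 := Int.emod_nonneg b hD1
  have h3 : a % (D : ℤ) = b % (D : ℤ) := by omega
  exact Int.ModEq.dvd h3.symm

open Classical in
theorem SEC_fiber {P D₀ : ℕ} (hD₀ : 1 ≤ D₀) (Y : Finset (ℤ × ℤ)) (hY : Y ⊆ Bx P)
    (sl : ℤ × ℤ → ℤ × ℤ → ℤ)
    (hsl : ∀ y ∈ Y, ∀ y' ∈ Y, y.1 * y'.2 - y'.1 * y.2 ≠ 0 → IsCoprime (sl y y') (y.1 * y'.2 - y'.1 * y.2) ∧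
      y.1 * y'.2 - y'.1 * y.2 ∣ y'.1 - sl y y' * y.1 ∧ y.1 * y'.2 - y'.1 * y.2 ∣ y'.2 - sl y y' * y.2)
    (t : Σ _ : ℕ, ℕ) :
    #{q ∈ (Y ×ˢ Y).filter (fun p => D₀ ≤ (SEC_det p).natAbs) | SEC_key sl q = t} ≤ (2 * (2 * P ^ 2 / D₀) + 1) ^ 4 := by
  obtain ⟨m, hm⟩ : ∃ m : ℕ, m = 2 * P ^ 2 / D₀ := ⟨_, rfl⟩
  rw [← hm]
  rcases Finset.eq_empty_or_nonempty
    {q ∈ (Y ×ˢ Y).filter (fun p => D₀ ≤ (SEC_det p).natAbs) | SEC_key sl q = t} with h | ⟨p, hp⟩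
  · rw [h]
    simp
  · rw [mem_filter, mem_filter, mem_product] at hp
    obtain ⟨⟨⟨hp1, hp2⟩, hpD⟩, hpk⟩ := hp
    obtain ⟨D, hD⟩ : ∃ D : ℕ, D = (SEC_det p).natAbs := ⟨_, rfl⟩
    have hD0 : 0 < D := by omega
    have hdet : p.1.1 * p.2.2 - p.2.1 * p.1.2 ≠ 0 := by
      intro h0
      have : (SEC_det p).natAbs = 0 := by
        unfold SEC_det
        rw [h0]
        rfl
      omega
    have hDdvd : (D : ℤ) ∣ SEC_det p := by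
      rw [hD]
      exact Int.natAbs_dvd.2 dvd_rfl
    obtain ⟨_, hpa, hpb⟩ := hsl p.1 hp1 p.2 hp2 hdet
    have hpa' : (D : ℤ) ∣ p.2.1 - sl p.1 p.2 * p.1.1 := hDdvd.trans hpa
    have hpb' : (D : ℤ) ∣ p.2.2 - sl p.1 p.2 * p.1.2 := hDdvd.trans hpb
    have hc : ((Icc (-(m : ℤ)) m ×ˢ Icc (-(m : ℤ)) m) ×ˢ (Icc (-(m : ℤ)) m ×ˢ Icc (-(m : ℤ)) m)).card =
        (2 * m + 1) ^ 4 := by
      rw [card_product, card_product, Int.card_Icc]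
      have : ((m : ℤ) + 1 - -(m : ℤ)).toNat = 2 * m + 1 := by omega
      rw [this]
      ring
    rw [← hc]
    refine Finset.card_le_card_of_injOn (fun q =>
      (((p.2.1 * q.1.1 - p.1.1 * q.2.1) / (D : ℤ), (p.2.1 * q.1.2 - p.1.1 * q.2.2) / (D : ℤ)),
       ((p.2.2 * q.1.1 - p.1.2 * q.2.1) / (D : ℤ), (p.2.2 * q.1.2 - p.1.2 * q.2.2) / (D : ℤ)))) ?_ ?_
    all_goals
      have hkey : ∀ q ∈ (((Y ×ˢ Y).filter (fun p => D₀ ≤ (SEC_det p).natAbs)).filter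
          (fun q => SEC_key sl q = t)), q.1 ∈ Y ∧ q.2 ∈ Y ∧
          (D : ℤ) ∣ p.2.1 * q.1.1 - p.1.1 * q.2.1 ∧ (D : ℤ) ∣ p.2.1 * q.1.2 - p.1.1 * q.2.2 ∧
          (D : ℤ) ∣ p.2.2 * q.1.1 - p.1.2 * q.2.1 ∧ (D : ℤ) ∣ p.2.2 * q.1.2 - p.1.2 * q.2.2 := by
        intro q hq
        rw [mem_filter, mem_filter, mem_product] at hq
        obtain ⟨⟨⟨hq1, hq2⟩, hqD⟩, hqk⟩ := hq
        have hk : SEC_key sl q = SEC_key sl p := by rw [hqk, hpk]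
        unfold SEC_key at hk
        rw [Sigma.mk.injEq] at hk
        obtain ⟨hk1, hk2⟩ := hk
        have hk2 := eq_of_heq hk2
        rw [hk1, ← hD] at hk2
        have hk1' : (SEC_det q).natAbs = D := by rw [hk1, hD]
        have hslD := SEC_emod hD0 hk2
        have hdetq : q.1.1 * q.2.2 - q.2.1 * q.1.2 ≠ 0 := by
          intro h0
          have : (SEC_det q).natAbs = 0 := by
            unfold SEC_det
            rw [h0]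
            rfl
          omega
        have hDq : (D : ℤ) ∣ SEC_det q := by
          rw [← hk1']
          exact Int.natAbs_dvd.2 dvd_rfl
        obtain ⟨_, hqa, hqb⟩ := hsl q.1 hq1 q.2 hq2 hdetq
        have hqa' : (D : ℤ) ∣ q.2.1 - sl q.1 q.2 * q.1.1 := hDq.trans hqa
        have hqb' : (D : ℤ) ∣ q.2.2 - sl q.1 q.2 * q.1.2 := hDq.trans hqb
        refine ⟨hq1, hq2, ?_, ?_, ?_, ?_⟩
        · have e : p.2.1 * q.1.1 - p.1.1 * q.2.1 = q.1.1 * (p.2.1 - sl p.1 p.2 * p.1.1) -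
              p.1.1 * (q.2.1 - sl q.1 q.2 * q.1.1) - p.1.1 * q.1.1 * (sl q.1 q.2 - sl p.1 p.2) := by ring
          rw [e]
          exact dvd_sub (dvd_sub (hpa'.mul_left _) (hqa'.mul_left _)) (hslD.mul_left _)
        · have e : p.2.1 * q.1.2 - p.1.1 * q.2.2 = q.1.2 * (p.2.1 - sl p.1 p.2 * p.1.1) -
              p.1.1 * (q.2.2 - sl q.1 q.2 * q.1.2) - p.1.1 * q.1.2 * (sl q.1 q.2 - sl p.1 p.2) := by ring
          rw [e]
          exact dvd_sub (dvd_sub (hpa'.mul_left _) (hqb'.mul_left _)) (hslD.mul_left _)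
        · have e : p.2.2 * q.1.1 - p.1.2 * q.2.1 = q.1.1 * (p.2.2 - sl p.1 p.2 * p.1.2) -
              p.1.2 * (q.2.1 - sl q.1 q.2 * q.1.1) - p.1.2 * q.1.1 * (sl q.1 q.2 - sl p.1 p.2) := by ring
          rw [e]
          exact dvd_sub (dvd_sub (hpb'.mul_left _) (hqa'.mul_left _)) (hslD.mul_left _)
        · have e : p.2.2 * q.1.2 - p.1.2 * q.2.2 = q.1.2 * (p.2.2 - sl p.1 p.2 * p.1.2) -
              p.1.2 * (q.2.2 - sl q.1 q.2 * q.1.2) - p.1.2 * q.1.2 * (sl q.1 q.2 - sl p.1 p.2) := by ring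
          rw [e]
          exact dvd_sub (dvd_sub (hpb'.mul_left _) (hqb'.mul_left _)) (hslD.mul_left _)
    · intro q hq
      obtain ⟨hq1, hq2, d1, d2, d3, d4⟩ := hkey q hq
      obtain ⟨a1, a2⟩ := SEC_mem (hY hp1)
      obtain ⟨b1, b2⟩ := SEC_mem (hY hp2)
      obtain ⟨c1, c2⟩ := SEC_mem (hY hq1)
      obtain ⟨e1, e2⟩ := SEC_mem (hY hq2)
      have hDD : D₀ ≤ D := by omega
      rw [coe_product, coe_product, hm]
      exact ⟨⟨SEC_quot hD₀ hDD d1 (SEC_bound b1 c1 a1 e1), SEC_quot hD₀ hDD d2 (SEC_bound b1 c2 a1 e2)⟩,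
        ⟨SEC_quot hD₀ hDD d3 (SEC_bound b2 c1 a2 e1), SEC_quot hD₀ hDD d4 (SEC_bound b2 c2 a2 e2)⟩⟩
    · intro q hq w hw h
      obtain ⟨_, _, d1, d2, d3, d4⟩ := hkey q hq
      obtain ⟨_, _, f1, f2, f3, f4⟩ := hkey w hw
      simp only [Prod.mk.injEq] at h
      obtain ⟨⟨h1, h2⟩, h3, h4⟩ := h
      have g1 := (Int.ediv_left_inj d1 f1).1 h1
      have g2 := (Int.ediv_left_inj d2 f2).1 h2
      have g3 := (Int.ediv_left_inj d3 f3).1 h3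
      have g4 := (Int.ediv_left_inj d4 f4).1 h4
      obtain ⟨r1, r2⟩ := SEC_lin hdet g1 g3
      obtain ⟨r3, r4⟩ := SEC_lin hdet g2 g4
      exact Prod.ext (Prod.ext r1 r3) (Prod.ext r2 r4)

theorem SEC_coprime {D : ℕ} {a b : ℤ} (hb : b.natAbs = D) (hD : 0 < D) (h : IsCoprime a b) :
    Nat.Coprime (a % (D : ℤ)).toNat D := by
  have hD1 : (D : ℤ) ≠ 0 := by exact_mod_cast (show D ≠ 0 by omega)
  have h1 := Int.emod_nonneg a hD1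
  rw [← Nat.isCoprime_iff_coprime, Int.toNat_of_nonneg h1]
  have h2 : IsCoprime a (D : ℤ) := by
    rw [← hb]
    rcases Int.natAbs_eq b with h3 | h3
    · rw [h3] at h
      exact h
    · rw [h3] at h
      exact (IsCoprime.neg_right_iff _ _).1 h
  rw [Int.emod_def]
  have := IsCoprime.add_mul_left_left h2 (-(a / D))
  rwa [show a - (D : ℤ) * (a / D) = a + (D : ℤ) * -(a / D) by ring]

theorem SEC : SEC_stmt := by
  classical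
  refine ⟨144, by norm_num, ?_⟩
  intro P D₀ hP hD₀ Y hY sl F hF hper hsl
  obtain ⟨S, hS⟩ : ∃ S, S = (Y ×ˢ Y).filter (fun p => D₀ ≤ (SEC_det p).natAbs) := ⟨_, rfl⟩
  obtain ⟨T, hT⟩ : ∃ T : Finset (Σ _ : ℕ, ℕ), T = (Icc D₀ (2 * P ^ 2)).sigma (fun D => (range D).filter (fun ω => Nat.Coprime ω D)) :=
    ⟨_, rfl⟩
  have hnz : ∀ p ∈ S, p.1 ∈ Y ∧ p.2 ∈ Y ∧ D₀ ≤ (SEC_det p).natAbs ∧ p.1.1 * p.2.2 - p.2.1 * p.1.2 ≠ 0 := by
    intro p hp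
    rw [hS, mem_filter, mem_product] at hp
    refine ⟨hp.1.1, hp.1.2, hp.2, fun h0 => ?_⟩
    have : (SEC_det p).natAbs = 0 := by
      unfold SEC_det
      rw [h0]
      rfl
    omega
  have hmaps : ∀ p ∈ S, SEC_key sl p ∈ T := by
    intro p hp
    obtain ⟨h1, h2, h3, h4⟩ := hnz p hp
    rw [hT, mem_sigma, mem_Icc]
    obtain ⟨a1, a2⟩ := SEC_mem (hY h1)
    obtain ⟨b1, b2⟩ := SEC_mem (hY h2)
    have h5 := SEC_bound a1 b2 b1 a2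
    have h6 : (SEC_det p).natAbs ≤ 2 * P ^ 2 := by
      have h7 : (((SEC_det p).natAbs : ℕ) : ℤ) ≤ ((2 * P ^ 2 : ℕ) : ℤ) := by
        rw [← Int.abs_eq_natAbs]
        push_cast
        exact h5
      exact_mod_cast h7
    refine ⟨⟨h3, h6⟩, ?_⟩
    show (sl p.1 p.2 % ((SEC_det p).natAbs : ℤ)).toNat ∈ (range (SEC_det p).natAbs).filter
      (fun ω => Nat.Coprime ω (SEC_det p).natAbs)
    have h8 : 0 < (SEC_det p).natAbs := by omega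
    rw [mem_filter, mem_range]
    have h9 := Int.emod_lt_of_pos (sl p.1 p.2) (show (0 : ℤ) < ((SEC_det p).natAbs : ℤ) by exact_mod_cast h8)
    refine ⟨by omega, SEC_coprime rfl h8 (hsl p.1 h1 p.2 h2 h4).1⟩
  -- the sum as a sum over the keys
  have e1 : ∑ p ∈ Y ×ˢ Y with D₀ ≤ (p.1.1 * p.2.2 - p.2.1 * p.1.2).natAbs,
      F (p.1.1 * p.2.2 - p.2.1 * p.1.2).natAbs (sl p.1 p.2) =
      ∑ t ∈ T, (#{q ∈ S | SEC_key sl q = t} : ℝ) * F t.1 (t.2 : ℤ) := by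
    have e2 : ∑ p ∈ Y ×ˢ Y with D₀ ≤ (p.1.1 * p.2.2 - p.2.1 * p.1.2).natAbs,
        F (p.1.1 * p.2.2 - p.2.1 * p.1.2).natAbs (sl p.1 p.2) =
        ∑ p ∈ S, F (SEC_key sl p).1 ((SEC_key sl p).2 : ℤ) := by
      rw [hS]
      refine Finset.sum_congr rfl fun p hp => ?_
      rw [mem_filter] at hp
      have h8 : 0 < (SEC_det p).natAbs := lt_of_lt_of_le (by omega : 0 < D₀) hp.2
      refine hper _ _ _ ?_
      have h9 : (((SEC_key sl p).2 : ℕ) : ℤ) = sl p.1 p.2 % ((SEC_det p).natAbs : ℤ) :=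
        Int.toNat_of_nonneg (Int.emod_nonneg _ (by exact_mod_cast h8.ne'))
      rw [h9]
      show (((SEC_det p).natAbs : ℕ) : ℤ) ∣ _
      exact Int.dvd_self_sub_emod
    rw [e2, ← Finset.sum_fiberwise_of_maps_to hmaps]
    refine Finset.sum_congr rfl fun t _ => ?_
    rw [Finset.sum_congr rfl (fun p hp => by rw [(mem_filter.1 hp).2] :
      ∀ p ∈ S.filter (fun p => SEC_key sl p = t), F (SEC_key sl p).1 ((SEC_key sl p).2 : ℤ) = F t.1 (t.2 : ℤ)),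
      Finset.sum_const, nsmul_eq_mul]
  rw [e1]
  refine (Real.sum_mul_le_sqrt_mul_sqrt T _ _).trans ?_
  have e3 : ∑ t ∈ T, F t.1 (t.2 : ℤ) ^ 2 =
      ∑ D ∈ Icc D₀ (2 * P ^ 2), ∑ ω ∈ range D with Nat.Coprime ω D, F D (ω : ℤ) ^ 2 := by
    rw [hT, Finset.sum_sigma]
  rw [e3]
  refine mul_le_mul_of_nonneg_right ?_ (Real.sqrt_nonneg _)
  refine Real.sqrt_le_iff.2 ⟨by positivity, ?_⟩
  -- the bound for the second moment
  have hcard : ∀ t ∈ T, (#{q ∈ S | SEC_key sl q = t} : ℝ) ≤ (((2 * (2 * P ^ 2 / D₀) + 1) ^ 4 : ℕ) : ℝ) := by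
    intro t _
    rw [hS]
    exact_mod_cast SEC_fiber hD₀ Y hY sl hsl t
  have hsum : ∑ t ∈ T, (#{q ∈ S | SEC_key sl q = t} : ℝ) = (#S : ℝ) := by
    rw [Finset.card_eq_sum_card_fiberwise hmaps]
    push_cast
    rfl
  have hSc : (#S : ℝ) ≤ 81 * (P : ℝ) ^ 4 := by
    have h1 : #S ≤ #Y * #Y := by
      rw [hS, ← card_product]
      exact card_filter_le _ _
    have h2 : #Y ≤ (2 * P + 1) * (2 * P + 1) := by
      refine (card_le_card hY).trans ?_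
      unfold Bx
      rw [card_product, Int.card_Icc]
      have : ((P : ℤ) + 1 - -(P : ℤ)).toNat = 2 * P + 1 := by omega
      rw [this]
    have h3 : 2 * P + 1 ≤ 3 * P := by omega
    have h4 : #S ≤ 81 * P ^ 4 := by
      calc #S ≤ #Y * #Y := h1
        _ ≤ ((3 * P) * (3 * P)) * ((3 * P) * (3 * P)) := by
            have h5 : #Y ≤ (3 * P) * (3 * P) := h2.trans (Nat.mul_le_mul h3 h3)
            exact Nat.mul_le_mul h5 h5
        _ = 81 * P ^ 4 := by ring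
    exact_mod_cast h4
  have hB : (((2 * (2 * P ^ 2 / D₀) + 1) ^ 4 : ℕ) : ℝ) ≤ 256 * ((P : ℝ) ^ 2 / D₀ + 1) ^ 4 := by
    have h1 : ((2 * P ^ 2 / D₀ : ℕ) : ℝ) ≤ 2 * (P : ℝ) ^ 2 / D₀ := by
      have := @Nat.cast_div_le ℝ _ _ _ (2 * P ^ 2) D₀
      push_cast at this
      exact this
    have h2 : (2 * ((2 * P ^ 2 / D₀ : ℕ) : ℝ) + 1) ≤ 4 * ((P : ℝ) ^ 2 / D₀ + 1) := by
      have : 2 * (P : ℝ) ^ 2 / D₀ = 2 * ((P : ℝ) ^ 2 / D₀) := by ring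
      rw [this] at h1
      linarith
    calc (((2 * (2 * P ^ 2 / D₀) + 1) ^ 4 : ℕ) : ℝ) = (2 * ((2 * P ^ 2 / D₀ : ℕ) : ℝ) + 1) ^ 4 := by push_cast; ring
      _ ≤ (4 * ((P : ℝ) ^ 2 / D₀ + 1)) ^ 4 := pow_le_pow_left₀ (by positivity) h2 4
      _ = 256 * ((P : ℝ) ^ 2 / D₀ + 1) ^ 4 := by ring
  calc ∑ t ∈ T, (#{q ∈ S | SEC_key sl q = t} : ℝ) ^ 2
      ≤ ∑ t ∈ T, (256 * ((P : ℝ) ^ 2 / D₀ + 1) ^ 4) * (#{q ∈ S | SEC_key sl q = t} : ℝ) := by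
        refine Finset.sum_le_sum fun t ht => ?_
        rw [sq]
        exact mul_le_mul_of_nonneg_right ((hcard t ht).trans hB) (Nat.cast_nonneg _)
    _ = 256 * ((P : ℝ) ^ 2 / D₀ + 1) ^ 4 * (#S : ℝ) := by rw [← Finset.mul_sum, hsum]
    _ ≤ 256 * ((P : ℝ) ^ 2 / D₀ + 1) ^ 4 * (81 * (P : ℝ) ^ 4) := mul_le_mul_of_nonneg_left hSc (by positivity)
    _ = (144 * (P : ℝ) ^ 2 * ((P : ℝ) ^ 2 / D₀ + 1) ^ 2) ^ 2 := by ring

end Pool.Agent.FI
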