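import Pool.Agent.helper58.FI.SpecC

set_option autoImplicit false

namespace Pool.Agent.FI

open Pool.Agent.helper58.DC Pool.Agent.DI Pool.Agent.GR Pool.Agent.OB Pool.Agent.DR

theorem FSQ_one {α : Type} (s : Set α) (hs : s.Finite) : ∑ᶠ _i ∈ s, (1 : ℕ) = s.ncard := by
  rw [finsum_mem_eq_finite_toFinset_sum _ hs, Finset.sum_const, smul_eq_mul, mul_one, Set.ncard_eq_toFinset_card s hs]

theorem FSQ (hFIX : FIX_stmt) (hFCP : FCP_stmt) (hFRA : FRA_stmt) (hFEQ : FEQ_stmt) : FSQ_stmt := by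
  intro p M hS G _ _ D x θ χ hL P hPD hP N hN1 hN2
  have hcard : (Bl M (cz P) θ).ncard = Nat.card D := (hL.good P hPD hP).card
  have hDpos : 0 < Nat.card D := Nat.card_pos
  have hfin : (Bl M (cz P) θ).Finite := Set.finite_of_ncard_pos (by rw [hcard]; exact hDpos)
  have hne : (Bl M (cz P) θ).Nonempty := (Set.ncard_pos hfin).1 (by rw [hcard]; exact hDpos)
  obtain ⟨hcT, hcP, -, -⟩ := (hFRA p M hS G D x θ χ hL.lo P hPD).1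
  have hF := hFCP p M hS G D x θ χ hL.lo P hPD hP N hN1 hN2
  have e1 : ∑ᶠ ψ ∈ Bl M (cz P) θ, ((cz P).relIndex (stF N ψ)) ^ 2 =
      ∑ᶠ ψ ∈ Bl M (cz P) θ, ((cz D).relIndex (stF (TT M D θ ⊓ N) ψ)) ^ 2 :=
    finsum_mem_congr rfl fun ψ hψ => by rw [(hF ψ hψ).2.2.1]
  rw [e1]
  have hle : ∀ ψ : G → ℂ, stF (TT M D θ ⊓ N) ψ ≤ TT M D θ ⊓ N := fun ψ y hy => hy.1
  by_cases hT : TT M D θ ⊓ N ≤ cz D
  · have e2 : ∑ᶠ ψ ∈ Bl M (cz P) θ, ((cz D).relIndex (stF (TT M D θ ⊓ N) ψ)) ^ 2 = ∑ᶠ ψ ∈ Bl M (cz P) θ, (1 : ℕ) :=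
      finsum_mem_congr rfl fun ψ _ => by rw [Subgroup.relIndex_eq_one.2 ((hle ψ).trans hT), one_pow]
    rw [e2, FSQ_one _ hfin, hcard, Subgroup.relIndex_eq_one.2 hT]
    omega
  · obtain ⟨ψ₁, hψ₁⟩ := hne
    obtain ⟨s, hs, hs2⟩ := (hF ψ₁ hψ₁).2.2.2
    have hsc : s ∉ cz D := by
      intro h
      apply hT
      intro y hy
      obtain ⟨k, hk⟩ := hs2 y hy
      have h1 := (cz D).mul_mem ((cz D).inv_mem ((cz D).zpow_mem h k)) hk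
      rwa [inv_mul_cancel_left] at h1
    have hsP : s ∈ nz P := hN2 hs.2
    have hfix := hFIX p M hS G D x θ χ hL P hPD hP s hs.1 hsP hsc
    obtain ⟨ψ₀, hψ₀⟩ := Set.ncard_eq_one.1 hfix
    have hψ₀' : ψ₀ ∈ {ψ : G → ℂ | ψ ∈ Bl M (cz P) θ ∧ cjF s ψ = ψ} := by rw [hψ₀]; rfl
    obtain ⟨hψb, hψs⟩ := hψ₀'
    -- elements of `cz P` fix `ψ₀`
    have hcf : ∀ c ∈ cz P, cjF c ψ₀ = ψ₀ := by
      intro c hc
      have h1 : cjF (⟨c, hc⟩ : cz P) (fun h : cz P => ψ₀ (h : G)) = fun h : cz P => ψ₀ (h : G) :=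
        ((hFEQ (cz P) M ⟨c, hc⟩ 1 ⊥ ⊥ ⊥ (fun _ => 0) (fun _ => 0) (fun h : cz P => ψ₀ (h : G))).2.2.2.2.2.1 hψb.1.2).1
      funext y
      rw [cjF_apply]
      by_cases hy : y ∈ cz P
      · have h2 := congrFun h1 ⟨y, hy⟩
        rw [cjF_apply] at h2
        exact h2
      · rw [hψb.1.1 y hy]
        refine hψb.1.1 _ fun h => hy ?_
        have h3 := (cz P).mul_mem ((cz P).mul_mem hc h) ((cz P).inv_mem hc)
        have h4 : c * (c⁻¹ * y * c) * c⁻¹ = y := by group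
        rwa [h4] at h3
    have hTS : TT M D θ ⊓ N ≤ stF ⊤ ψ₀ := by
      intro y hy
      obtain ⟨k, hk⟩ := hs2 y hy
      have h1 : s ∈ stF ⊤ ψ₀ := ⟨Subgroup.mem_top s, hψs⟩
      have h2 : s ^ k * y ∈ stF ⊤ ψ₀ := ⟨Subgroup.mem_top _, hcf _ (hcP hk)⟩
      have h3 := (stF ⊤ ψ₀).mul_mem ((stF ⊤ ψ₀).inv_mem ((stF ⊤ ψ₀).zpow_mem h1 k)) h2
      rwa [inv_mul_cancel_left] at h3
    have hst0 : stF (TT M D θ ⊓ N) ψ₀ = TT M D θ ⊓ N :=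
      le_antisymm (hle ψ₀) fun y hy => ⟨hy, (hTS hy).2⟩
    have hst1 : ∀ ψ ∈ Bl M (cz P) θ, ψ ≠ ψ₀ → stF (TT M D θ ⊓ N) ψ ≤ cz D := by
      intro ψ hψ hne t ht
      by_contra htc
      have h1 := hFIX p M hS G D x θ χ hL P hPD hP t ht.1.1 (hN2 ht.1.2) htc
      obtain ⟨φ, hφ⟩ := Set.ncard_eq_one.1 h1
      have h2 : ψ ∈ {ψ : G → ℂ | ψ ∈ Bl M (cz P) θ ∧ cjF t ψ = ψ} := ⟨hψ, ht.2⟩
      have h3 : ψ₀ ∈ {ψ : G → ℂ | ψ ∈ Bl M (cz P) θ ∧ cjF t ψ = ψ} := ⟨hψb, (hTS ht.1).2⟩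
      rw [hφ] at h2 h3
      exact hne (h2.trans h3.symm)
    have hins : Bl M (cz P) θ = insert ψ₀ (Bl M (cz P) θ \ {ψ₀}) := by
      rw [Set.insert_sdiff_singleton, Set.insert_eq_of_mem hψb]
    have hfin' : (Bl M (cz P) θ \ {ψ₀}).Finite := hfin.subset Set.sdiff_subset
    rw [hins, finsum_mem_insert _ (fun h => h.2 rfl) hfin', hst0]
    have e3 : ∑ᶠ ψ ∈ Bl M (cz P) θ \ {ψ₀}, ((cz D).relIndex (stF (TT M D θ ⊓ N) ψ)) ^ 2 =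
        ∑ᶠ ψ ∈ Bl M (cz P) θ \ {ψ₀}, (1 : ℕ) :=
      finsum_mem_congr rfl fun ψ hψ => by rw [Subgroup.relIndex_eq_one.2 (hst1 ψ hψ.1 hψ.2), one_pow]
    rw [e3, FSQ_one _ hfin', Set.ncard_sdiff_singleton_of_mem hψb, hcard]
    omega

end Pool.Agent.FI
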